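import Pool.Agent.Helper84.OB.Stmts

/-! # Sheet OB, row SD: one side of the construction -/

set_option autoImplicit false

universe u

open Set Pool.Agent.Helper84.BT Pool.Agent.Helper84.OB
open scoped Matroid

namespace Pool.Agent.Helper4.OB

theorem st_SD (h1 : ST_EX.{u}) (h2 : ST_CI.{u}) (h3 : ST_WZ.{u}) (h4 : ST_DP.{u})
    (h5 : ST_HY.{u}) : ST_SD.{u} := by
  intro α _ M X Y hT hTd hP
  have hXE : X ⊆ M.E := hP.hX.subset_ground
  have hYE : Y ⊆ M.E := hP.hY.subset_ground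
  obtain ⟨e, heX, heY, heF⟩ := h1 α M X Y hT hP
  have hK : M.IsFlat (X ∩ Y) := by
    rw [Set.inter_eq_iInter]
    refine Matroid.IsFlat.iInter fun b => ?_
    cases b
    · exact hP.hY.1
    · exact hP.hX.1
  obtain ⟨C, hCX, hCK, hC1, hC2, hC3⟩ := h2 α M X (X ∩ Y) e hP.hX hK inter_subset_left heX
    (fun h => heY h.2) heF
  have hCY : Disjoint C Y := by
    rw [Set.disjoint_left] at hCK ⊢
    intro c hc hcY
    exact hCK hc ⟨hCX hc, hcY⟩
  obtain ⟨w, hwY, hw⟩ := h3 α M X Y hTd hP.hX hP.hY hP.pos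
  have hdep : ∀ O ⊆ C, ∀ x ∈ O, x ∈ M.closure ((O \ {x}) ∪ Y) → w ∈ M.closure (O ∪ Y) := by
    intro O hO x hx hxc
    obtain ⟨W, hW1, hW2, hW3, hW4⟩ := h4 α M X Y C O x hP hCX hCK hC1 hC2 hC3 hO hx hxc
    exact hW3 (hw W hW1 hW2 hW4)
  have hwC : w ∈ M.closure (C ∪ Y) := by
    have hne : C.Nonempty := by
      by_contra hne
      rw [Set.not_nonempty_iff_eq_empty] at hne
      rw [hne, Set.ncard_empty] at hC2
      have := rk_mono M (inter_subset_left : X ∩ Y ⊆ X)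
      omega
    obtain ⟨c, hc⟩ := hne
    refine hdep C subset_rfl c hc ?_
    have h6 : c ∈ M.closure ((C \ {c}) ∪ (X ∩ Y)) := by
      rw [mem_closure_iff_rk M (hXE (hCX hc)), hC3 c hc, ← hC1]
      congr 1
      rw [← Set.insert_union, Set.insert_sdiff_singleton, Set.insert_eq_of_mem hc]
    exact M.closure_subset_closure (union_subset_union_right _ inter_subset_right) h6
  obtain ⟨H, hHC, hH1, hH2, hH3⟩ := h5 α M Y C w hP.hY.1 (hCX.trans hXE) hwY hwC hdep
  have hCU : rk M (C ∪ Y) = rk M (X ∪ Y) := by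
    apply le_antisymm (rk_mono M (union_subset_union_left _ hCX))
    have h7 := rk_submod M X (C ∪ Y)
    have h8 : X ∪ (C ∪ Y) = X ∪ Y := by
      rw [← union_assoc, union_eq_self_of_subset_right hCX]
    have h9 : rk M X ≤ rk M (X ∩ (C ∪ Y)) := by
      rw [← hC1]
      refine rk_mono M ?_
      rintro z (hz | hz)
      · exact ⟨hCX hz, Or.inl hz⟩
      · exact ⟨hz.1, Or.inr hz.2⟩
    rw [h8] at h7
    omega
  rw [hCU] at hH2 hH3
  exact ⟨C, H, hHC, hCX, hCY, hC1, hC2, hC3, hH1, hH2, hH3⟩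

end Pool.Agent.Helper4.OB
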